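import Pool.Agent.MP_9e8696_an.H82.Iface

/-!
Interfaces between the toolbox for Ising weights, the abstract one-label inequality and `Loc`.
-/

namespace Pool.Agent.MP_9e8696_an.H99

open Finset H68 H82

/-- The mean of `F` for the weight `exp (x' Q x)` on the cube. -/
noncomputable def qE {ι : Type} [Fintype ι] [DecidableEq ι] (Q : ι → ι → ℝ)
    (F : (ι → Bool) → ℝ) : ℝ :=
  (∑ x, Real.exp (qf Q fun i => sg (x i)) * F x) / ∑ x : ι → Bool, Real.exp (qf Q fun i => sg (x i))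

/-- The squared Frobenius norm of the off-diagonal part. -/
def off {ι : Type} [Fintype ι] [DecidableEq ι] (A : ι → ι → ℝ) : ℝ :=
  ∑ i, ∑ j, if i = j then 0 else A i j ^ 2

/-- The toolbox: moments, gain and two-sided variance bounds for `0 ≤ Q ≤ d ≤ d₀`. -/
def Tool (M d₀ : ℝ) : Prop :=
  ∀ (ι : Type) [Fintype ι] [DecidableEq ι] (Q : ι → ι → ℝ) (d : ℝ),
    (∀ i j, Q i j = Q j i) → (∀ u, 0 ≤ qf Q u) → (∀ u, qf Q u ≤ d * ∑ i, u i ^ 2) →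
    0 ≤ d → d ≤ d₀ →
    (∀ b : ι → ℝ, qE Q (fun x => lf b x ^ 2) ≤ 2 * ∑ i, b i ^ 2) ∧
    (∀ b : ι → ℝ, qE Q (fun x => lf b x ^ 4) ≤ M * (∑ i, b i ^ 2) ^ 2) ∧
    (∀ b : ι → ℝ, ∑ i, b i ^ 2 + qf Q b - 3 * ∑ i, b i ^ 2 * Q i i ≤
      qE Q (fun x => lf b x ^ 2)) ∧
    (∀ A : ι → ι → ℝ, (∀ i j, A i j = A j i) →
      off A ≤ M * qE Q (fun x => (yq A x - qE Q (yq A)) ^ 2) ∧
      qE Q (fun x => (yq A x - qE Q (yq A)) ^ 2) ≤ M * off A ∧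
      qE Q (fun x => (yq A x - qE Q (yq A)) ^ 4) ≤ M * off A ^ 2)

/-- Row TOOL. -/
def RowTool : Prop := ∃ M d₀ : ℝ, 1 ≤ M ∧ 0 < d₀ ∧ Tool M d₀

/-- The mean of `F` for the weight `ν * exp (t * y)` on a finite set. -/
noncomputable def tE {Ω : Type} [Fintype Ω] (ν y : Ω → ℝ) (t : ℝ) (F : Ω → ℝ) : ℝ :=
  (∑ ω, ν ω * Real.exp (t * y ω) * F ω) / ∑ ω, ν ω * Real.exp (t * y ω)

/-- Row ABS: the one-label inequality on an abstract finite set (`f = <b,x>`, `g = <c,x>`). -/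
def RowAbs : Prop :=
  ∀ M : ℝ, 1 ≤ M → ∃ C e₀ : ℝ, 0 ≤ C ∧ 0 < e₀ ∧ e₀ ≤ 1 / 2 ∧
    ∀ (Ω : Type) [Fintype Ω] [Nonempty Ω] (ν y f g : Ω → ℝ) (κ N l e : ℝ),
      (∀ ω, 0 < ν ω) → 0 ≤ κ → κ ≤ 1 → 0 ≤ N → -(1 / 4) ≤ l → 0 < e → e ≤ e₀ →
      (∀ t : ℝ, 0 ≤ t → t ≤ 1 / (1 - e) →
        tE ν y t (fun ω => f ω ^ 2) ≤ 2 ∧
        tE ν y t (fun ω => g ω ^ 2) ≤ 2 ∧
        tE ν y t (fun ω => g ω ^ 4) ≤ M ∧
        tE ν y t (fun ω => (f ω - g ω) ^ 2) ≤ M * κ ∧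
        tE ν y t (fun ω => (f ω - g ω) ^ 4) ≤ M * κ ^ 2 ∧
        1 / 2 ≤ tE ν y t (fun ω => g ω ^ 2 + κ) ∧
        N ≤ M * tE ν y t (fun ω => (y ω - tE ν y t y) ^ 2) ∧
        tE ν y t (fun ω => (y ω - tE ν y t y) ^ 2) ≤ M * N ∧
        tE ν y t (fun ω => (y ω - tE ν y t y) ^ 4) ≤ M * N ^ 2) →
      1 + l ≤ tE ν y 0 (fun ω => f ω ^ 2) →
      Real.exp (e * (tE ν y (1 / (1 - e)) (fun ω => g ω ^ 2 + κ) - 1) - tE ν y (1 / (1 - e)) y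
          + min (l / 4) (2 * l) - C * e * κ) ≤
        tE ν y (1 / (1 - e))
          (fun ω => (f ω ^ 2) ^ (1 - e) * (g ω ^ 2 + κ) ^ e * Real.exp (-y ω))

/-- The target of the local part. -/
def RowLoc : Prop := ∃ C e₀ d₀ : ℝ, 0 ≤ C ∧ 0 < e₀ ∧ 0 < d₀ ∧ Loc C e₀ d₀

/-- Row GLUE. -/
def RowGlue : Prop := RowTool → RowAbs → RowLoc

end Pool.Agent.MP_9e8696_an.H99
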